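import Pool.Agent.V11266.FirstTrees

/-! # Packing `T_2, …, T_s` into graphs of minimum degree at least `k - 1`, `s ≤ (√3/2) k + 1/2`

For all `k ≥ 2`, every graph `G` of minimum degree at least `k - 1` and all trees `T_2, …, T_s` with
`|V(T_i)| = i` and `s ≤ (√3/2) k + 1/2`, the trees `T_2, …, T_s` pack into `G`. -/

set_option autoImplicit false

namespace Pool.Agent.Results.MP_2b1ae8_co.SmallerTrees

/-- The trees `T_2, …, T_s` (`T_i` on `i` vertices) pack into `G`: they can be mapped injectively to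
the vertices of `G` such that edges go to edges and no edge of `G` is used by two different trees. -/
def Packs {V : Type} (G : SimpleGraph V) (s : ℕ) (T : (i : ℕ) → SimpleGraph (Fin i)) : Prop :=
  ∃ f : (i : ℕ) → Fin i → V,
    (∀ i, 2 ≤ i → i ≤ s → Function.Injective (f i) ∧
      ∀ a b : Fin i, (T i).Adj a b → G.Adj (f i a) (f i b)) ∧
    (∀ i j, 2 ≤ i → i ≤ s → 2 ≤ j → j ≤ s → i ≠ j →
      ∀ (a b : Fin i) (c d : Fin j), (T i).Adj a b → (T j).Adj c d →
        s(f i a, f i b) ≠ s(f j c, f j d))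

/-- Let `k ≥ 2`, let `G` be a graph on `n ≥ 1` vertices with `δ(G) ≥ k - 1`, and let `T_2, …, T_s` be
trees with `|V(T_i)| = i`.
(1) If `s ≤ (√3/2) k + 1/2`, then `T_2, …, T_s` pack into `G`.
(2) If `s ≤ k` and either `2 s ≤ n + 1` or `4 s (s - 1) + (n + 1)² < 4 (k + 1) n`, then
`T_2, …, T_s` pack into `G`. -/
theorem result (k s : ℕ) (hk : 2 ≤ k) (V : Type) [Finite V] [Nonempty V] (G : SimpleGraph V)
    (hG : ∀ v : V, k - 1 ≤ (G.neighborSet v).ncard)
    (T : (i : ℕ) → SimpleGraph (Fin i)) (hT : ∀ i, 2 ≤ i → i ≤ s → (T i).IsTree) :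
    ((s : ℝ) ≤ Real.sqrt 3 / 2 * k + 1 / 2 → Packs G s T) ∧
    (s ≤ k → (2 * s ≤ Nat.card V + 1 ∨
      4 * (s * (s - 1)) + (Nat.card V + 1) ^ 2 < 4 * (k + 1) * Nat.card V) → Packs G s T) := by
  have hG' : (k - 1) * Nat.card V ≤ 2 * G.edgeSet.ncard := V11266.FirstTrees.min_degree G (k - 1) hG
  refine ⟨fun hs => ?_, fun hsk h => V11266.FirstTrees.main G k s hsk T hT hG' h⟩
  obtain ⟨h1, h2⟩ := V11266.FirstTrees.cond_of_sqrt k s (Nat.card V) (by omega)
    (V11266.FirstTrees.card_ge G k hG') hs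
  exact V11266.FirstTrees.main G k s h1 T hT hG' h2

end Pool.Agent.Results.MP_2b1ae8_co.SmallerTrees
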